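import Mathlib

/-!
# Building a cycle from a closed sequence of vertices
-/

set_option autoImplicit false

namespace Pool.Agent.Lib.Helper6.MinRank

open SimpleGraph

variable {V : Type*}

/-- The walk `g (L - 1 - k), …, g (L - 1)`. -/
lemma exists_walk (G : SimpleGraph V) (L : ℕ) (g : ℕ → V)
    (hadj : ∀ t, t + 1 < L → G.Adj (g t) (g (t + 1))) (k : ℕ) (hk : k < L) :
    ∃ p : G.Walk (g (L - 1 - k)) (g (L - 1)), p.length = k ∧
      ∀ i, i ≤ k → p.getVert i = g (L - 1 - k + i) := by
  induction k with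
  | zero =>
    refine ⟨Walk.nil, rfl, ?_⟩
    intro i hi
    have : i = 0 := by omega
    subst this
    simp
  | succ k ih =>
    obtain ⟨p, hp1, hp2⟩ := ih (by omega)
    have h1 : G.Adj (g (L - 1 - (k + 1))) (g (L - 1 - (k + 1) + 1)) := hadj _ (by omega)
    have h2 : L - 1 - (k + 1) + 1 = L - 1 - k := by omega
    rw [h2] at h1
    refine ⟨Walk.cons h1 p, ?_, ?_⟩
    · rw [Walk.length_cons, hp1]
    · intro i hi
      cases i with
      | zero => simp
      | succ i =>
        rw [Walk.getVert_cons_succ, hp2 i (by omega)]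
        congr 1
        omega

lemma exists_cycle (G : SimpleGraph V) (L : ℕ) (hL : 3 ≤ L) (g : ℕ → V)
    (hinj : ∀ s t, s < L → t < L → g s = g t → s = t)
    (hadj : ∀ t, t + 1 < L → G.Adj (g t) (g (t + 1))) (hclose : G.Adj (g (L - 1)) (g 0)) :
    ∃ c : G.Walk (g (L - 1)) (g (L - 1)), c.IsCycle ∧ c.length = L ∧
      c.getVert 0 = g (L - 1) ∧ ∀ k, k < L → c.getVert (k + 1) = g k := by
  obtain ⟨p, hp1, hp2⟩ := exists_walk G L g hadj (L - 1) (by omega)
  have h0 : L - 1 - (L - 1) = 0 := by omega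
  rw [← h0] at hclose
  have hp2' : ∀ i, i ≤ L - 1 → p.getVert i = g i := by
    intro i hi
    rw [hp2 i hi]
    congr 1
    omega
  have hpath : p.IsPath := by
    rw [← Walk.IsPath.getVert_injOn_iff]
    intro s hs t ht hst
    simp only [Set.mem_ofPred_eq] at hs ht
    rw [hp2' s (by omega), hp2' t (by omega)] at hst
    exact hinj s t (by omega) (by omega) hst
  refine ⟨Walk.cons hclose p, ?_, ?_, ?_, ?_⟩
  · rw [Walk.cons_isCycle_iff]
    refine ⟨hpath, ?_⟩
    intro hmem
    rw [Sym2.eq_swap] at hmem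
    have := hpath.length_eq_one_of_mem_edges hmem
    omega
  · rw [Walk.length_cons, hp1]
    omega
  · simp
  · intro k hk
    rw [Walk.getVert_cons_succ]
    exact hp2' k (by omega)

/-- If every cycle of length at least `6` has a chord, then a closed sequence of at least `6`
distinct vertices has two adjacent members that are not consecutive on it. -/
lemma exists_chord (G : SimpleGraph V)
    (hG : ∀ (u : V) (c : G.Walk u u), c.IsCycle → 6 ≤ c.length →
        ∃ i j : ℕ, i + 1 < j ∧ j < c.length ∧ ¬ (i = 0 ∧ j + 1 = c.length) ∧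
          G.Adj (c.getVert i) (c.getVert j))
    (L : ℕ) (hL : 6 ≤ L) (g : ℕ → V)
    (hinj : ∀ s t, s < L → t < L → g s = g t → s = t)
    (hadj : ∀ t, t + 1 < L → G.Adj (g t) (g (t + 1))) (hclose : G.Adj (g (L - 1)) (g 0)) :
    ∃ s t, s + 1 < t ∧ t < L ∧ ¬ (s = 0 ∧ t = L - 1) ∧ G.Adj (g s) (g t) := by
  obtain ⟨c, hc, hlen, h0, hs⟩ := exists_cycle G L (by omega) g hinj hadj hclose
  obtain ⟨i, j, hij, hj, hne, had⟩ := hG _ c hc (by omega)
  rw [hlen] at hj hne
  cases i with
  | zero =>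
    obtain ⟨j', rfl⟩ : ∃ j', j = j' + 1 := ⟨j - 1, by omega⟩
    rw [h0, hs j' (by omega)] at had
    refine ⟨j', L - 1, ?_, by omega, ?_, had.symm⟩
    · omega
    · rintro ⟨h1, -⟩
      omega
  | succ i =>
    obtain ⟨j', rfl⟩ : ∃ j', j = j' + 1 := ⟨j - 1, by omega⟩
    rw [hs i (by omega), hs j' (by omega)] at had
    exact ⟨i, j', by omega, by omega, by omega, had⟩

end Pool.Agent.Lib.Helper6.MinRank
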