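import Pool.Agent.Lib.Helper6.MinRank.Gamma
import Pool.Agent.Lib.Helper6.MinRank.Cycle

/-!
# Doubly lexical orderings

Every finite bipartite graph has a doubly lexical ordering of its two sides, and if every cycle of
length at least `6` has a chord then such an ordering has no submatrix Γ (Lubiw).
-/

set_option autoImplicit false
set_option linter.unusedSectionVars false

namespace Pool.Agent.Lib.Helper6.MinRank

open Finset

variable {X Y : Type*}

/-! ### Comparing sets by their binary values -/

lemma binary_cmp [Fintype Y] [DecidableEq Y] {q : Y → ℕ} (hq : Function.Injective q)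
    (s t : Finset Y) (h : ∑ y ∈ s, 2 ^ q y ≤ ∑ y ∈ t, 2 ^ q y) {y₀ : Y} (h1 : y₀ ∈ s)
    (h2 : y₀ ∉ t) :
    ∃ y₃, q y₀ < q y₃ ∧ y₃ ∉ s ∧ y₃ ∈ t ∧ ∀ y, q y₃ < q y → (y ∈ s ↔ y ∈ t) := by
  obtain ⟨y₃, hy₃, hmax⟩ := (univ.filter (fun y => ¬ (y ∈ s ↔ y ∈ t))).exists_max_image q
    ⟨y₀, by simp [h1, h2]⟩
  simp only [mem_filter, mem_univ, true_and] at hy₃ hmax
  have hagree : ∀ y, q y₃ < q y → (y ∈ s ↔ y ∈ t) := by
    intro y hy
    by_contra hcon
    exact absurd (hmax y hcon) (not_le.2 hy)
  by_cases hs : y₃ ∈ s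
  · exfalso
    have ht : y₃ ∉ t := fun ht => hy₃ ⟨fun _ => ht, fun _ => hs⟩
    have e1 : ∑ y ∈ t, 2 ^ q y = ∑ y ∈ t.filter (fun y => q y₃ < q y), 2 ^ q y +
        ∑ y ∈ t.filter (fun y => ¬ q y₃ < q y), 2 ^ q y :=
      (sum_filter_add_sum_filter_not t _ _).symm
    have e2 : ∑ y ∈ s, 2 ^ q y = ∑ y ∈ s.filter (fun y => q y₃ < q y), 2 ^ q y +
        ∑ y ∈ s.filter (fun y => ¬ q y₃ < q y), 2 ^ q y :=
      (sum_filter_add_sum_filter_not s _ _).symm
    have e3 : s.filter (fun y => q y₃ < q y) = t.filter (fun y => q y₃ < q y) := by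
      ext y
      simp only [mem_filter]
      constructor
      · rintro ⟨h3, h4⟩
        exact ⟨(hagree y h4).1 h3, h4⟩
      · rintro ⟨h3, h4⟩
        exact ⟨(hagree y h4).2 h3, h4⟩
    have e4 : 2 ^ q y₃ ≤ ∑ y ∈ s.filter (fun y => ¬ q y₃ < q y), 2 ^ q y := by
      apply single_le_sum (f := fun y => 2 ^ q y) (fun _ _ => Nat.zero_le _)
      simp [hs]
    have e5 : ∑ y ∈ t.filter (fun y => ¬ q y₃ < q y), 2 ^ q y < 2 ^ q y₃ := by
      have : ∑ y ∈ t.filter (fun y => ¬ q y₃ < q y), 2 ^ q y =
          ∑ k ∈ (t.filter (fun y => ¬ q y₃ < q y)).image q, 2 ^ k := by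
        rw [sum_image]
        intro a _ b _ hab
        exact hq hab
      rw [this]
      apply Nat.geomSum_lt le_rfl
      intro k hk
      simp only [mem_image, mem_filter, not_lt] at hk
      obtain ⟨y, ⟨hy1, hy2⟩, rfl⟩ := hk
      refine lt_of_le_of_ne hy2 ?_
      intro heq
      exact ht (hq heq ▸ hy1)
    rw [e1, e2, e3] at h
    omega
  · have ht : y₃ ∈ t := by
      by_contra ht
      exact hy₃ ⟨fun h => absurd h hs, fun h => absurd h ht⟩
    refine ⟨y₃, ?_, hs, ht, hagree⟩
    refine lt_of_le_of_ne (hmax y₀ (by simp [h1, h2])) ?_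
    intro heq
    exact hs (hq heq ▸ h1)

/-! ### Existence of doubly lexical orderings -/

/-- Rows are in lexicographic order. -/
def LexR (J : Set (X × Y)) (p : X → ℕ) (q : Y → ℕ) : Prop :=
  ∀ x x' y, p x < p x' → (x, y) ∈ J → (x', y) ∉ J →
    ∃ y₃, q y < q y₃ ∧ (x, y₃) ∉ J ∧ (x', y₃) ∈ J ∧
      ∀ y', q y₃ < q y' → ((x, y') ∈ J ↔ (x', y') ∈ J)

/-- Columns are in lexicographic order. -/
def LexC (J : Set (X × Y)) (p : X → ℕ) (q : Y → ℕ) : Prop :=
  ∀ y y' x, q y < q y' → (x, y) ∈ J → (x, y') ∉ J →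
    ∃ x₃, p x < p x₃ ∧ (x₃, y) ∉ J ∧ (x₃, y') ∈ J ∧
      ∀ x', p x₃ < p x' → ((x', y) ∈ J ↔ (x', y') ∈ J)

lemma swap_sum [Fintype X] [DecidableEq X] {N : ℕ} (p : X ≃ Fin N) (v : X → ℤ) {x x' : X}
    (hp : (p x : ℕ) < p x') (hv : v x' < v x) :
    ∑ z, (2 : ℤ) ^ (p z : ℕ) * v z <
      ∑ z, (2 : ℤ) ^ ((((Equiv.swap x x').trans p) z : Fin N) : ℕ) * v z := by
  have hne : x ≠ x' := by
    rintro rfl
    exact lt_irrefl _ hp
  rw [← sub_pos, ← sum_sub_distrib]
  have h : ∑ z, ((2 : ℤ) ^ ((((Equiv.swap x x').trans p) z : Fin N) : ℕ) * v z -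
      (2 : ℤ) ^ (p z : ℕ) * v z) =
      ((2 : ℤ) ^ (p x' : ℕ) * v x - (2 : ℤ) ^ (p x : ℕ) * v x) +
      ((2 : ℤ) ^ (p x : ℕ) * v x' - (2 : ℤ) ^ (p x' : ℕ) * v x') := by
    rw [sum_eq_add x x' hne]
    · simp
    · rintro z - ⟨hz1, hz2⟩
      simp [Equiv.swap_apply_of_ne_of_ne hz1 hz2]
    · intro h
      exact absurd (mem_univ _) h
    · intro h
      exact absurd (mem_univ _) h
  rw [h]
  have h1 : (2 : ℤ) ^ (p x : ℕ) < (2 : ℤ) ^ (p x' : ℕ) := pow_lt_pow_right₀ (by norm_num) hp
  nlinarith

theorem exists_lex [Fintype X] [Fintype Y] (J : Set (X × Y)) :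
    ∃ (p : X → ℕ) (q : Y → ℕ), Function.Injective p ∧ Function.Injective q ∧
      LexR J p q ∧ LexC J p q := by
  classical
  let e : (X ≃ Fin (Fintype.card X)) × (Y ≃ Fin (Fintype.card Y)) → ℤ := fun pq =>
    ∑ x, ∑ y, if (x, y) ∈ J then (2 : ℤ) ^ (pq.1 x : ℕ) * (2 : ℤ) ^ (pq.2 y : ℕ) else 0
  have : Nonempty ((X ≃ Fin (Fintype.card X)) × (Y ≃ Fin (Fintype.card Y))) :=
    ⟨(Fintype.equivFin X, Fintype.equivFin Y)⟩
  obtain ⟨⟨p, q⟩, hpq⟩ := Finite.exists_max e
  refine ⟨fun x => p x, fun y => q y, fun a b h => p.injective (Fin.ext h),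
    fun a b h => q.injective (Fin.ext h), ?_, ?_⟩
  · intro x x' y hp h1 h2
    have hval : ∑ z ∈ univ.filter (fun z => (x, z) ∈ J), 2 ^ (q z : ℕ) ≤
        ∑ z ∈ univ.filter (fun z => (x', z) ∈ J), 2 ^ (q z : ℕ) := by
      by_contra hcon
      push Not at hcon
      let v : X → ℤ := fun u => ∑ z ∈ univ.filter (fun z => (u, z) ∈ J), (2 : ℤ) ^ (q z : ℕ)
      have hv : v x' < v x := by
        simp only [v]
        exact_mod_cast hcon
      have hlt := swap_sum p v hp hv
      have hform : ∀ p' : X ≃ Fin (Fintype.card X), e (p', q) = ∑ z, (2 : ℤ) ^ (p' z : ℕ) * v z := by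
        intro p'
        simp only [e, v]
        apply sum_congr rfl
        intro u _
        rw [mul_sum, sum_filter]
      have h3 := hpq (((Equiv.swap x x').trans p), q)
      rw [hform, hform] at h3
      exact absurd hlt (not_lt.2 h3)
    obtain ⟨y₃, g1, g2, g3, g4⟩ := binary_cmp (q := fun y => (q y : ℕ))
      (fun a b h => q.injective (Fin.ext h)) _ _ hval (y₀ := y) (by simp [h1]) (by simp [h2])
    refine ⟨y₃, g1, by simpa using g2, by simpa using g3, ?_⟩
    intro y' hy'
    simpa using g4 y' hy'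
  · intro y y' x hq h1 h2
    have hval : ∑ z ∈ univ.filter (fun z => (z, y) ∈ J), 2 ^ (p z : ℕ) ≤
        ∑ z ∈ univ.filter (fun z => (z, y') ∈ J), 2 ^ (p z : ℕ) := by
      by_contra hcon
      push Not at hcon
      let v : Y → ℤ := fun u => ∑ z ∈ univ.filter (fun z => (z, u) ∈ J), (2 : ℤ) ^ (p z : ℕ)
      have hv : v y' < v y := by
        simp only [v]
        exact_mod_cast hcon
      have hlt := swap_sum q v hq hv
      have hform : ∀ q' : Y ≃ Fin (Fintype.card Y), e (p, q') = ∑ z, (2 : ℤ) ^ (q' z : ℕ) * v z := by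
        intro q'
        simp only [e, v]
        rw [sum_comm]
        apply sum_congr rfl
        intro u _
        rw [mul_sum, sum_filter]
        apply sum_congr rfl
        intro z _
        split_ifs
        · ring
        · rfl
      have h3 := hpq (p, ((Equiv.swap y y').trans q))
      rw [hform, hform] at h3
      exact absurd hlt (not_lt.2 h3)
    obtain ⟨x₃, g1, g2, g3, g4⟩ := binary_cmp (q := fun z => (p z : ℕ))
      (fun a b h => p.injective (Fin.ext h)) _ _ hval (y₀ := x) (by simp [h1]) (by simp [h2])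
    refine ⟨x₃, g1, by simpa using g2, by simpa using g3, ?_⟩
    intro x' hx'
    simpa using g4 x' hx'

/-! ### Lubiw's argument -/

/-- A long path of the bipartite graph, found by the greedy procedure. -/
structure Inv (J : Set (X × Y)) (p : X → ℕ) (q : Y → ℕ) (K : ℕ) (i : ℕ → X) (j : ℕ → Y) :
    Prop where
  pi : ∀ a b, a < b → b < K → p (i a) < p (i b)
  qj : ∀ a b, a < b → b < K → q (j a) < q (j b)
  h00 : (i 0, j 0) ∈ J
  hs : ∀ k, k + 1 < K → (i k, j (k + 1)) ∈ J ∧ (i (k + 1), j k) ∈ J
  hn : ∀ a b, a < K → b < K → (i a, j b) ∈ J → a + 1 = b ∨ b + 1 = a ∨ (a = 0 ∧ b = 0)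
  ar : ∀ k, k + 2 < K → ∀ y, q (j (k + 2)) < q y → ((i k, y) ∈ J ↔ (i (k + 1), y) ∈ J)
  ac : ∀ k, k + 2 < K → ∀ x, p (i (k + 2)) < p x → ((x, j k) ∈ J ↔ (x, j (k + 1)) ∈ J)

/-- `J` has no chordless cycle of length `2 K ≥ 6`. -/
def NoCyc (J : Set (X × Y)) : Prop :=
  ∀ (K : ℕ) (i : ℕ → X) (j : ℕ → Y), 3 ≤ K →
    (∀ a b, a < K → b < K → i a = i b → a = b) → (∀ a b, a < K → b < K → j a = j b → a = b) →
    (i 0, j 0) ∈ J → (i (K - 1), j (K - 1)) ∈ J →
    (∀ k, k + 1 < K → (i k, j (k + 1)) ∈ J ∧ (i (k + 1), j k) ∈ J) →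
    (∀ a b, a < K → b < K → (i a, j b) ∈ J →
      a + 1 = b ∨ b + 1 = a ∨ (a = 0 ∧ b = 0) ∨ (a = K - 1 ∧ b = K - 1)) → False

lemma Inv.inj_i {J : Set (X × Y)} {p : X → ℕ} {q : Y → ℕ} {K : ℕ} {i : ℕ → X} {j : ℕ → Y}
    (h : Inv J p q K i j) : ∀ a b, a < K → b < K → i a = i b → a = b := by
  intro a b ha hb hab
  rcases lt_trichotomy a b with k | k | k
  · have := h.pi a b k hb
    rw [hab] at this
    exact absurd this (lt_irrefl _)
  · exact k
  · have := h.pi b a k ha
    rw [hab] at this
    exact absurd this (lt_irrefl _)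

lemma Inv.step {J : Set (X × Y)} {p : X → ℕ} {q : Y → ℕ} (hR : LexR J p q) (hC : LexC J p q)
    (hJ : NoCyc J) {k : ℕ} {i : ℕ → X} {j : ℕ → Y} (h : Inv J p q (k + 2) i j) :
    ∃ (i' : ℕ → X) (j' : ℕ → Y), Inv J p q (k + 3) i' j' := by
  have hdiag : (i (k + 1), j (k + 1)) ∉ J := by
    intro hmem
    have := h.hn (k + 1) (k + 1) (by omega) (by omega) hmem
    omega
  obtain ⟨y₃, ya, yb, yc, yd⟩ := hR (i k) (i (k + 1)) (j (k + 1)) (h.pi k (k + 1) (by omega) (by omega))
    (h.hs k (by omega)).1 hdiag
  obtain ⟨x₃, xa, xb, xc, xd⟩ := hC (j k) (j (k + 1)) (i (k + 1)) (h.qj k (k + 1) (by omega) (by omega))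
    (h.hs k (by omega)).2 hdiag
  -- `y₃` is adjacent only to `i (k + 1)`
  have hy : ∀ m, m ≤ k → (i (k - m), y₃) ∉ J := by
    intro m
    induction m with
    | zero => intro _; simpa using yb
    | succ m ih =>
      intro hm
      have h1 := ih (by omega)
      have h2 := h.ar (k - (m + 1)) (by omega) y₃ (by
        rcases Nat.lt_or_ge (k - (m + 1) + 2) (k + 1) with g | g
        · exact (h.qj _ _ g (by omega)).trans ya
        · have : k - (m + 1) + 2 = k + 1 := by omega
          rw [this]
          exact ya)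
      have h3 : k - (m + 1) + 1 = k - m := by omega
      rw [h3] at h2
      exact fun h4 => h1 (h2.1 h4)
  have hx : ∀ m, m ≤ k → (x₃, j (k - m)) ∉ J := by
    intro m
    induction m with
    | zero => intro _; simpa using xb
    | succ m ih =>
      intro hm
      have h1 := ih (by omega)
      have h2 := h.ac (k - (m + 1)) (by omega) x₃ (by
        rcases Nat.lt_or_ge (k - (m + 1) + 2) (k + 1) with g | g
        · exact (h.pi _ _ g (by omega)).trans xa
        · have : k - (m + 1) + 2 = k + 1 := by omega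
          rw [this]
          exact xa)
      have h3 : k - (m + 1) + 1 = k - m := by omega
      rw [h3] at h2
      exact fun h4 => h1 (h2.1 h4)
  have hy' : ∀ a, a < k + 2 → (i a, y₃) ∈ J → a = k + 1 := by
    intro a ha hmem
    by_contra hne
    have := hy (k - a) (by omega)
    have h3 : k - (k - a) = a := by omega
    rw [h3] at this
    exact this hmem
  have hx' : ∀ a, a < k + 2 → (x₃, j a) ∈ J → a = k + 1 := by
    intro a ha hmem
    by_contra hne
    have := hx (k - a) (by omega)
    have h3 : k - (k - a) = a := by omega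
    rw [h3] at this
    exact this hmem
  set i' : ℕ → X := fun n => if n < k + 2 then i n else x₃ with hi'
  set j' : ℕ → Y := fun n => if n < k + 2 then j n else y₃ with hj'
  have ei : ∀ n, n < k + 2 → i' n = i n := fun n hn => by simp [hi', hn]
  have ej : ∀ n, n < k + 2 → j' n = j n := fun n hn => by simp [hj', hn]
  have ei2 : i' (k + 2) = x₃ := by simp [hi']
  have ej2 : j' (k + 2) = y₃ := by simp [hj']
  have pi' : ∀ a b, a < b → b < k + 3 → p (i' a) < p (i' b) := by
    intro a b hab hb
    rcases Nat.lt_or_ge b (k + 2) with g | g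
    · rw [ei a (by omega), ei b g]
      exact h.pi a b hab g
    · have : b = k + 2 := by omega
      subst this
      rw [ei2, ei a hab]
      rcases Nat.lt_or_ge a (k + 1) with g' | g'
      · exact (h.pi a (k + 1) g' (by omega)).trans xa
      · have : a = k + 1 := by omega
        subst this
        exact xa
  have qj' : ∀ a b, a < b → b < k + 3 → q (j' a) < q (j' b) := by
    intro a b hab hb
    rcases Nat.lt_or_ge b (k + 2) with g | g
    · rw [ej a (by omega), ej b g]
      exact h.qj a b hab g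
    · have : b = k + 2 := by omega
      subst this
      rw [ej2, ej a hab]
      rcases Nat.lt_or_ge a (k + 1) with g' | g'
      · exact (h.qj a (k + 1) g' (by omega)).trans ya
      · have : a = k + 1 := by omega
        subst this
        exact ya
  have h00' : (i' 0, j' 0) ∈ J := by
    rw [ei 0 (by omega), ej 0 (by omega)]
    exact h.h00
  have hs' : ∀ m, m + 1 < k + 3 → (i' m, j' (m + 1)) ∈ J ∧ (i' (m + 1), j' m) ∈ J := by
    intro m hm
    rcases Nat.lt_or_ge (m + 1) (k + 2) with g | g
    · rw [ei m (by omega), ej m (by omega), ei (m + 1) g, ej (m + 1) g]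
      exact h.hs m g
    · have : m = k + 1 := by omega
      subst this
      rw [ei (k + 1) (by omega), ej (k + 1) (by omega), ei2, ej2]
      exact ⟨yc, xc⟩
  have hn' : ∀ a b, a < k + 3 → b < k + 3 → (i' a, j' b) ∈ J →
      a + 1 = b ∨ b + 1 = a ∨ (a = 0 ∧ b = 0) ∨ (a = k + 2 ∧ b = k + 2) := by
    intro a b ha hb hmem
    rcases Nat.lt_or_ge a (k + 2) with g | g
    · rcases Nat.lt_or_ge b (k + 2) with g' | g'
      · rw [ei a g, ej b g'] at hmem
        have := h.hn a b g g' hmem
        omega
      · have : b = k + 2 := by omega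
        subst this
        rw [ei a g, ej2] at hmem
        have := hy' a g hmem
        omega
    · have : a = k + 2 := by omega
      subst this
      rcases Nat.lt_or_ge b (k + 2) with g' | g'
      · rw [ei2, ej b g'] at hmem
        have := hx' b g' hmem
        omega
      · have : b = k + 2 := by omega
        subst this
        omega
  have hlast : (x₃, y₃) ∉ J := by
    intro hmem
    apply hJ (k + 3) i' j' (by omega)
    · intro a b ha hb hab
      rcases lt_trichotomy a b with g | g | g
      · have := pi' a b g hb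
        rw [hab] at this
        exact absurd this (lt_irrefl _)
      · exact g
      · have := pi' b a g ha
        rw [hab] at this
        exact absurd this (lt_irrefl _)
    · intro a b ha hb hab
      rcases lt_trichotomy a b with g | g | g
      · have := qj' a b g hb
        rw [hab] at this
        exact absurd this (lt_irrefl _)
      · exact g
      · have := qj' b a g ha
        rw [hab] at this
        exact absurd this (lt_irrefl _)
    · exact h00'
    · show (i' (k + 2), j' (k + 2)) ∈ J
      rw [ei2, ej2]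
      exact hmem
    · exact hs'
    · intro a b ha hb hmem'
      have := hn' a b ha hb hmem'
      omega
  refine ⟨i', j', ⟨pi', qj', h00', hs', ?_, ?_, ?_⟩⟩
  · intro a b ha hb hmem
    rcases hn' a b ha hb hmem with g | g | g | g
    · exact Or.inl g
    · exact Or.inr (Or.inl g)
    · exact Or.inr (Or.inr g)
    · obtain ⟨rfl, rfl⟩ := g
      rw [ei2, ej2] at hmem
      exact absurd hmem hlast
  · intro m hm y hy4
    rcases Nat.lt_or_ge (m + 2) (k + 2) with g | g
    · rw [ej (m + 2) g] at hy4
      rw [ei m (by omega), ei (m + 1) (by omega)]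
      exact h.ar m g y hy4
    · have : m = k := by omega
      subst this
      rw [ej2] at hy4
      rw [ei m (by omega), ei (m + 1) (by omega)]
      exact yd y hy4
  · intro m hm x hx4
    rcases Nat.lt_or_ge (m + 2) (k + 2) with g | g
    · rw [ei (m + 2) g] at hx4
      rw [ej m (by omega), ej (m + 1) (by omega)]
      exact h.ac m g x hx4
    · have : m = k := by omega
      subst this
      rw [ei2] at hx4
      rw [ej m (by omega), ej (m + 1) (by omega)]
      exact xd x hx4

theorem lex_GF [Fintype X] {J : Set (X × Y)} {p : X → ℕ} {q : Y → ℕ} (hR : LexR J p q)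
    (hC : LexC J p q) (hJ : NoCyc J) : GF J p q := by
  intro x x' y y' hx hy h1 h2 h3
  by_contra h4
  have base : Inv J p q 2 (fun n => if n = 0 then x else x') (fun n => if n = 0 then y else y') := by
    refine ⟨?_, ?_, ?_, ?_, ?_, ?_, ?_⟩
    · intro a b hab hb
      have ha : a = 0 := by omega
      have hb' : b = 1 := by omega
      subst ha hb'
      simpa using hx
    · intro a b hab hb
      have ha : a = 0 := by omega
      have hb' : b = 1 := by omega
      subst ha hb'
      simpa using hy
    · simpa using h1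
    · intro k hk
      have : k = 0 := by omega
      subst this
      simpa using ⟨h2, h3⟩
    · intro a b ha hb hmem
      have ha' : a = 0 ∨ a = 1 := by omega
      have hb' : b = 0 ∨ b = 1 := by omega
      rcases ha' with rfl | rfl <;> rcases hb' with rfl | rfl
      · omega
      · omega
      · omega
      · simp at hmem
        exact absurd hmem h4
    · intro k hk
      omega
    · intro k hk
      omega
  have hall : ∀ k, ∃ (i : ℕ → X) (j : ℕ → Y), Inv J p q (k + 2) i j := by
    intro k
    induction k with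
    | zero => exact ⟨_, _, base⟩
    | succ k ih =>
      obtain ⟨i, j, h⟩ := ih
      exact h.step hR hC hJ
  obtain ⟨i, j, h⟩ := hall (Fintype.card X)
  have hinj : Function.Injective (fun a : Fin (Fintype.card X + 2) => i a) := by
    intro a b hab
    exact Fin.ext (h.inj_i a b a.2 b.2 hab)
  have := Fintype.card_le_of_injective _ hinj
  simp at this

/-! ### From graphs to `NoCyc` -/

theorem noCyc_of_chordal {J : Set (X × Y)} (G : SimpleGraph (X ⊕ Y))
    (hG1 : ∀ x y, G.Adj (Sum.inl x) (Sum.inr y) ↔ (x, y) ∈ J)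
    (hG2 : ∀ x x', ¬ G.Adj (Sum.inl x) (Sum.inl x')) (hG3 : ∀ y y', ¬ G.Adj (Sum.inr y) (Sum.inr y'))
    (hG : ∀ (u : X ⊕ Y) (c : G.Walk u u), c.IsCycle → 6 ≤ c.length →
        ∃ i j : ℕ, i + 1 < j ∧ j < c.length ∧ ¬ (i = 0 ∧ j + 1 = c.length) ∧
          G.Adj (c.getVert i) (c.getVert j)) : NoCyc J := by
  intro K i j hK hi hj h00 hlast hs hn
  have hG1' : ∀ x y, G.Adj (Sum.inr y) (Sum.inl x) ↔ (x, y) ∈ J := by
    intro x y
    rw [SimpleGraph.adj_comm]
    exact hG1 x y
  let A : ℕ → X ⊕ Y := fun t => if t % 2 = 0 then Sum.inl (i t) else Sum.inr (j t)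
  let B : ℕ → X ⊕ Y := fun t => if t % 2 = 0 then Sum.inr (j t) else Sum.inl (i t)
  have hAA : ∀ a b, a < K → b < K → G.Adj (A a) (A b) → a + 1 = b ∨ b + 1 = a := by
    intro a b ha hb hab
    simp only [A] at hab
    split_ifs at hab with e1 e2 e2
    · exact absurd hab (hG2 _ _)
    · rw [hG1] at hab
      have := hn a b ha hb hab
      omega
    · rw [hG1'] at hab
      have := hn b a hb ha hab
      omega
    · exact absurd hab (hG3 _ _)
  have hBB : ∀ a b, a < K → b < K → G.Adj (B a) (B b) → a + 1 = b ∨ b + 1 = a := by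
    intro a b ha hb hab
    simp only [B] at hab
    split_ifs at hab with e1 e2 e2
    · exact absurd hab (hG3 _ _)
    · rw [hG1'] at hab
      have := hn b a hb ha hab
      omega
    · rw [hG1] at hab
      have := hn a b ha hb hab
      omega
    · exact absurd hab (hG2 _ _)
  have hAB : ∀ a b, a < K → b < K → G.Adj (A a) (B b) →
      (a = 0 ∧ b = 0) ∨ (a = K - 1 ∧ b = K - 1) := by
    intro a b ha hb hab
    simp only [A, B] at hab
    split_ifs at hab with e1 e2 e2
    · rw [hG1] at hab
      have := hn a b ha hb hab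
      omega
    · exact absurd hab (hG2 _ _)
    · exact absurd hab (hG3 _ _)
    · rw [hG1'] at hab
      have := hn b a hb ha hab
      omega
  have hAinj : ∀ a b, a < K → b < K → A a = A b → a = b := by
    intro a b ha hb hab
    simp only [A] at hab
    split_ifs at hab with e1 e2 e2
    · exact hi a b ha hb (Sum.inl_injective hab)
    · exact hj a b ha hb (Sum.inr_injective hab)
  have hBinj : ∀ a b, a < K → b < K → B a = B b → a = b := by
    intro a b ha hb hab
    simp only [B] at hab
    split_ifs at hab with e1 e2 e2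
    · exact hj a b ha hb (Sum.inr_injective hab)
    · exact hi a b ha hb (Sum.inl_injective hab)
  have hABne : ∀ a b, a < K → b < K → A a ≠ B b := by
    intro a b ha hb hab
    simp only [A, B] at hab
    split_ifs at hab with e1 e2 e2
    · have := hi a b ha hb (Sum.inl_injective hab)
      omega
    · have := hj a b ha hb (Sum.inr_injective hab)
      omega
  let g : ℕ → X ⊕ Y := fun t => if t < K then A t else B (2 * K - 1 - t)
  have g1 : ∀ t, t < K → g t = A t := fun t ht => by simp [g, ht]
  have g2 : ∀ t, K ≤ t → g t = B (2 * K - 1 - t) := fun t ht => by simp [g, Nat.not_lt.2 ht]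
  obtain ⟨s, t, hst, ht, hne, hadj⟩ := exists_chord G hG (2 * K) (by omega) g
    (by
      intro s t hs ht hst
      rcases Nat.lt_or_ge s K with k1 | k1 <;> rcases Nat.lt_or_ge t K with k2 | k2
      · rw [g1 s k1, g1 t k2] at hst
        exact hAinj s t k1 k2 hst
      · rw [g1 s k1, g2 t k2] at hst
        exact absurd hst (hABne _ _ k1 (by omega))
      · rw [g2 s k1, g1 t k2] at hst
        exact absurd hst.symm (hABne _ _ k2 (by omega))
      · rw [g2 s k1, g2 t k2] at hst
        have := hBinj _ _ (by omega) (by omega) hst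
        omega)
    (by
      intro t ht
      rcases Nat.lt_or_ge (t + 1) K with k1 | k1
      · rw [g1 t (by omega), g1 (t + 1) k1]
        have h := hs t k1
        simp only [A]
        rcases Nat.mod_two_eq_zero_or_one t with e | e
        · have e' : (t + 1) % 2 = 1 := by omega
          simp only [e, e', if_true, one_ne_zero, if_false]
          exact (hG1 _ _).2 h.1
        · have e' : (t + 1) % 2 = 0 := by omega
          simp only [e, e', if_true, one_ne_zero, if_false]
          exact (hG1' _ _).2 h.2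
      · rcases Nat.lt_or_ge t K with k2 | k2
        · have ht' : t = K - 1 := by omega
          subst ht'
          rw [g1 _ k2, g2 _ k1]
          have e0 : 2 * K - 1 - (K - 1 + 1) = K - 1 := by omega
          rw [e0]
          simp only [A, B]
          split_ifs with e
          · exact (hG1 _ _).2 hlast
          · exact (hG1' _ _).2 hlast
        · rw [g2 t k2, g2 (t + 1) k1]
          obtain ⟨u, hu⟩ : ∃ u, 2 * K - 1 - (t + 1) = u := ⟨_, rfl⟩
          have hu' : 2 * K - 1 - t = u + 1 := by omega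
          rw [hu, hu']
          have h := hs u (by omega)
          simp only [B]
          rcases Nat.mod_two_eq_zero_or_one u with e | e
          · have e' : (u + 1) % 2 = 1 := by omega
            simp only [e, e', if_true, one_ne_zero, if_false]
            exact (hG1 _ _).2 h.2
          · have e' : (u + 1) % 2 = 0 := by omega
            simp only [e, e', if_true, one_ne_zero, if_false]
            exact (hG1' _ _).2 h.1)
    (by
      rw [g2 (2 * K - 1) (by omega), g1 0 (by omega)]
      have e0 : 2 * K - 1 - (2 * K - 1) = 0 := by omega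
      rw [e0]
      simp only [A, B, Nat.zero_mod, if_true]
      exact (hG1' _ _).2 h00)
  rcases Nat.lt_or_ge s K with k1 | k1 <;> rcases Nat.lt_or_ge t K with k2 | k2
  · rw [g1 s k1, g1 t k2] at hadj
    have := hAA s t k1 k2 hadj
    omega
  · rw [g1 s k1, g2 t k2] at hadj
    have := hAB s _ k1 (by omega) hadj
    omega
  · omega
  · rw [g2 s k1, g2 t k2] at hadj
    have := hBB _ _ (by omega) (by omega) hadj
    omega

end Pool.Agent.Lib.Helper6.MinRank
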