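import Pool.Agent.Lib.Helper6.MinRank.Step

/-!
# Patterns without the submatrix Γ

`GF J p q` says that, when rows are listed by increasing `p` and columns by increasing `q`, the
pattern `J` has no submatrix `[1 1; 1 0]`.  Such a pattern can be filled in one entry at a time,
so an incomplete matrix with such a pattern has a completion whose rank is bounded by any potential.
-/

set_option autoImplicit false
set_option linter.unusedSectionVars false

namespace Pool.Agent.Lib.Helper6.MinRank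

variable {F : Type*} [Field F] {X Y : Type*} [Fintype X] [Fintype Y]

/-- No submatrix `[1 1; 1 0]` in the given orders of rows and columns. -/
def GF (J : Set (X × Y)) (p : X → ℕ) (q : Y → ℕ) : Prop :=
  ∀ i i' j j', p i < p i' → q j < q j' → (i, j) ∈ J → (i, j') ∈ J → (i', j) ∈ J → (i', j') ∈ J

lemma GF.c6 {J : Set (X × Y)} {p : X → ℕ} {q : Y → ℕ} (hp : Function.Injective p)
    (hq : Function.Injective q) (h : GF J p q) {r : X} {c : Y} (hrc : (r, c) ∉ J)
    (r₁ r₂ : X) (d₁ d₂ : Y) (h1 : (r, d₁) ∈ J) (h2 : (r, d₂) ∈ J) (h3 : (r₁, d₁) ∈ J)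
    (h4 : (r₁, c) ∈ J) (h5 : (r₂, c) ∈ J) (h6 : (r₂, d₂) ∈ J) :
    (r₁, d₂) ∈ J ∨ (r₂, d₁) ∈ J := by
  by_contra hcon
  push Not at hcon
  obtain ⟨n1, n2⟩ := hcon
  have e1 : p r ≠ p r₁ := fun e => hrc (hp e ▸ h4)
  have e2 : p r ≠ p r₂ := fun e => hrc (hp e ▸ h5)
  have e3 : p r₁ ≠ p r₂ := fun e => n1 ((hp e).symm ▸ h6)
  have f1 : q c ≠ q d₁ := fun e => hrc ((hq e).symm ▸ h1)
  have f2 : q c ≠ q d₂ := fun e => hrc ((hq e).symm ▸ h2)
  have f3 : q d₁ ≠ q d₂ := fun e => n1 (hq e ▸ h3)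
  rcases Nat.lt_or_gt_of_ne e1 with k1 | k1
  · rcases Nat.lt_or_gt_of_ne e2 with k2 | k2
    · -- `r` is smallest
      rcases Nat.lt_or_gt_of_ne f3 with k3 | k3
      · exact n1 (h r r₁ d₁ d₂ k1 k3 h1 h2 h3)
      · exact n2 (h r r₂ d₂ d₁ k2 k3 h2 h1 h6)
    · -- `r₂` is smallest
      rcases Nat.lt_or_gt_of_ne f2 with k3 | k3
      · exact n1 (h r₂ r₁ c d₂ (k2.trans k1) k3 h5 h6 h4)
      · exact hrc (h r₂ r d₂ c k2 k3 h6 h5 h2)
  · rcases Nat.lt_or_gt_of_ne e3 with k2 | k2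
    · -- `r₁` is smallest
      rcases Nat.lt_or_gt_of_ne f1 with k3 | k3
      · exact n2 (h r₁ r₂ c d₁ k2 k3 h4 h3 h5)
      · exact hrc (h r₁ r d₁ c k1 k3 h3 h4 h1)
    · -- `r₂` is smallest
      rcases Nat.lt_or_gt_of_ne f2 with k3 | k3
      · exact n1 (h r₂ r₁ c d₂ k2 k3 h5 h6 h4)
      · exact hrc (h r₂ r d₂ c (k2.trans k1) k3 h6 h5 h2)

lemma GF.add_last {J : Set (X × Y)} {p : X → ℕ} {q : Y → ℕ} (hp : Function.Injective p)
    (hq : Function.Injective q) (h : GF J p q) {r : X} {c : Y}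
    (hrow : ∀ i, p r < p i → ∀ d, (i, d) ∈ J) (hcol : ∀ d, q c < q d → (r, d) ∈ J) :
    GF (insert (r, c) J) p q := by
  intro i i' j j' hi hj h1 h2 h3
  by_contra hcon
  have hcon' : (i', j') ∉ J := fun h => hcon (Set.mem_insert_of_mem _ h)
  have hne : (i', j') ≠ (r, c) := fun h => hcon (h ▸ Set.mem_insert _ _)
  have key : ∀ k d, p k < p r ∨ (k = r ∧ q d < q c) → (k, d) ∈ insert (r, c) J → (k, d) ∈ J := by
    intro k d hk hkd
    apply mem_of_insert hkd
    rcases hk with hk | ⟨_, hk⟩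
    · left; rintro rfl; exact lt_irrefl _ hk
    · right; rintro rfl; exact lt_irrefl _ hk
  rcases lt_trichotomy (p i') (p r) with k | k | k
  · exact hcon' (h i i' j j' hi hj (key _ _ (Or.inl (hi.trans k)) h1)
      (key _ _ (Or.inl (hi.trans k)) h2) (key _ _ (Or.inl k) h3))
  · have hir : i' = r := hp k
    subst hir
    have hj' : q j' < q c := by
      rcases lt_trichotomy (q j') (q c) with l | l | l
      · exact l
      · exact absurd (by rw [hq l]) hne
      · exact absurd (hcol j' l) hcon'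
    exact hcon' (h i i' j j' hi hj (key _ _ (Or.inl hi) h1) (key _ _ (Or.inl hi) h2)
      (key _ _ (Or.inr ⟨rfl, hj.trans hj'⟩) h3))
  · exact hcon' (hrow i' k j')

/-- An incomplete matrix whose pattern has no Γ has a completion of rank at most
`φ univ - φ ∅`, for every potential `φ`. -/
theorem exists_completion (n : ℕ) : ∀ (J : Set (X × Y)) (A : X → Y → F) (φ : Set Y → ℤ)
    (p : X → ℕ) (q : Y → ℕ), Function.Injective p → Function.Injective q → GF J p q →
    Pot J A φ → (Jᶜ).ncard = n →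
    ∃ B : X → Y → F, (∀ i d, (i, d) ∈ J → B i d = A i d) ∧
      (rk B Set.univ Set.univ : ℤ) ≤ φ Set.univ - φ ∅ := by
  induction n with
  | zero =>
    intro J A φ p q hp hq hGF hφ hn
    have hJ : J = Set.univ := by
      rw [Set.ncard_eq_zero (Set.toFinite _)] at hn
      exact Set.compl_empty_iff.1 hn
    subst hJ
    refine ⟨A, fun _ _ _ => rfl, ?_⟩
    have h := hφ ∅ Set.univ (Set.empty_subset _)
    have h1 : RJ (Set.univ : Set (X × Y)) Set.univ = Set.univ := by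
      ext i; simp [RJ]
    rw [h1, rk_empty_col] at h
    simpa using h
  | succ n ih =>
    intro J A φ p q hp hq hGF hφ hn
    -- the last missing entry
    have hne : (Jᶜ).Nonempty := by
      rw [← Set.ncard_pos (Set.toFinite _), hn]
      omega
    obtain ⟨r, hr⟩ : ∃ r : X, (∃ d, (r, d) ∉ J) ∧ ∀ i, (∃ d, (i, d) ∉ J) → p i ≤ p r := by
      obtain ⟨⟨i₀, d₀⟩, h0⟩ := hne
      obtain ⟨r, hr1, hr2⟩ := Set.exists_max_image {i : X | ∃ d, (i, d) ∉ J} p (Set.toFinite _)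
        ⟨i₀, d₀, h0⟩
      exact ⟨r, hr1, hr2⟩
    obtain ⟨hr1, hr2⟩ := hr
    obtain ⟨c, hc⟩ : ∃ c : Y, (r, c) ∉ J ∧ ∀ d, (r, d) ∉ J → q d ≤ q c := by
      obtain ⟨d₀, h0⟩ := hr1
      obtain ⟨c, hc1, hc2⟩ := Set.exists_max_image {d : Y | (r, d) ∉ J} q (Set.toFinite _)
        ⟨d₀, h0⟩
      exact ⟨c, hc1, hc2⟩
    obtain ⟨hc1, hc2⟩ := hc
    have hrow : ∀ i, p r < p i → ∀ d, (i, d) ∈ J := by
      intro i hi d
      by_contra hcon
      exact absurd (hr2 i ⟨d, hcon⟩) (not_le.2 hi)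
    have hcol : ∀ d, q c < q d → (r, d) ∈ J := by
      intro d hd
      by_contra hcon
      exact absurd (hc2 d hcon) (not_le.2 hd)
    obtain ⟨x, φ', h1, h2, h3⟩ := step hφ hc1 (fun r₁ r₂ d₁ d₂ => hGF.c6 hp hq hc1 r₁ r₂ d₁ d₂)
    have hcard : ((insert (r, c) J)ᶜ).ncard = n := by
      have : (insert (r, c) J)ᶜ = Jᶜ \ {(r, c)} := by
        ext e
        simp only [Set.mem_compl_iff, Set.mem_insert_iff, Set.mem_sdiff, Set.mem_singleton_iff]
        tauto
      rw [this, Set.ncard_sdiff_singleton_of_mem hc1, hn]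
      rfl
    obtain ⟨B, hB1, hB2⟩ := ih (insert (r, c) J) (upd A r c x) φ' p q hp hq
      (hGF.add_last hp hq hrow hcol) h1 hcard
    refine ⟨B, ?_, ?_⟩
    · intro i d hid
      rw [hB1 i d (Set.mem_insert_of_mem _ hid)]
      apply upd_of_ne
      rintro ⟨rfl, rfl⟩
      exact hc1 hid
    · omega

end Pool.Agent.Lib.Helper6.MinRank
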