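import Mathlib

/-!
# Ranks of submatrices

For a matrix `A`, a set `R` of rows and a set `D` of columns, `rk A R D` is the rank of the
submatrix of `A` on `R × D`.  We collect the (sub)modularity properties used later.
-/

set_option autoImplicit false
set_option linter.unusedSectionVars false

namespace Pool.Agent.Lib.Helper6.MinRank

open Module

variable {F : Type*} [Field F] {X Y : Type*} [Fintype X]

/-- Zero out the coordinates outside `R`. -/
noncomputable def proj (F : Type*) [Field F] {X : Type*} (R : Set X) : (X → F) →ₗ[F] (X → F) where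
  toFun v := R.indicator v
  map_add' v w := Set.indicator_add R v w
  map_smul' a v := by
    ext i
    by_cases h : i ∈ R <;> simp [h]

omit [Fintype X] in
lemma proj_apply (R : Set X) (v : X → F) : proj F R v = R.indicator v := rfl

/-- The `d`-th column of `A`, restricted to the rows in `R`. -/
noncomputable def cv (A : X → Y → F) (R : Set X) (d : Y) : X → F := proj F R (fun i => A i d)

/-- The column space of the submatrix `A[R, D]`. -/
noncomputable def sp (A : X → Y → F) (R : Set X) (D : Set Y) : Submodule F (X → F) :=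
  Submodule.span F (cv A R '' D)

/-- The rank of the submatrix `A[R, D]`. -/
noncomputable def rk (A : X → Y → F) (R : Set X) (D : Set Y) : ℕ := finrank F (sp A R D)

omit [Fintype X] in
lemma proj_proj {R R' : Set X} (h : R' ⊆ R) (v : X → F) : proj F R' (proj F R v) = proj F R' v := by
  ext i
  simp only [proj_apply]
  by_cases hi : i ∈ R'
  · simp [hi, h hi]
  · simp [hi]

omit [Fintype X] in
lemma proj_cv (A : X → Y → F) {R R' : Set X} (h : R' ⊆ R) (d : Y) :
    proj F R' (cv A R d) = cv A R' d := proj_proj h _

omit [Fintype X] in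
lemma sp_mono (A : X → Y → F) (R : Set X) {D' D : Set Y} (h : D' ⊆ D) : sp A R D' ≤ sp A R D :=
  Submodule.span_mono (Set.image_mono h)

omit [Fintype X] in
lemma map_sp (A : X → Y → F) {R R' : Set X} (h : R' ⊆ R) (D : Set Y) :
    (sp A R D).map (proj F R') = sp A R' D := by
  unfold sp
  rw [Submodule.map_span, Set.image_image]
  congr 1
  apply Set.image_congr
  intro d _
  exact proj_cv A h d

omit [Fintype X] in
lemma sp_supported (A : X → Y → F) (R : Set X) (D : Set Y) {v : X → F} (hv : v ∈ sp A R D) :
    proj F R v = v := by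
  have h : (sp A R D).map (proj F R) = sp A R D := map_sp A subset_rfl D
  unfold sp at hv
  induction hv using Submodule.span_induction with
  | mem x hx =>
    obtain ⟨d, _, rfl⟩ := hx
    exact proj_cv A subset_rfl d
  | zero => simp
  | add x y _ _ hx hy => rw [map_add, hx, hy]
  | smul a x _ hx => rw [map_smul, hx]

lemma finrank_map_add (S : Submodule F (X → F)) (f : (X → F) →ₗ[F] (X → F)) :
    finrank F (S.map f) + finrank F (S ⊓ LinearMap.ker f : Submodule F (X → F)) = finrank F S := by
  have h := LinearMap.finrank_range_add_finrank_ker (f.domRestrict S)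
  rw [LinearMap.range_domRestrict] at h
  rw [← h]
  congr 1
  have h2 : LinearMap.ker (f.domRestrict S) = (S ⊓ LinearMap.ker f).comap S.subtype := by
    ext x
    simp [LinearMap.mem_ker]
  rw [h2]
  exact (Submodule.comapSubtypeEquivOfLe inf_le_left).finrank_eq.symm

/-- Marginal ranks of columns grow with the set of rows. -/
lemma rk_super (A : X → Y → F) {R' R : Set X} {D' D : Set Y} (hR : R' ⊆ R) (hD : D' ⊆ D) :
    rk A R' D + rk A R D' ≤ rk A R D + rk A R' D' := by
  have h1 := finrank_map_add (sp A R D) (proj F R')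
  have h2 := finrank_map_add (sp A R D') (proj F R')
  rw [map_sp A hR] at h1 h2
  have h3 : finrank F (sp A R D' ⊓ LinearMap.ker (proj F R') : Submodule F (X → F)) ≤
      finrank F (sp A R D ⊓ LinearMap.ker (proj F R') : Submodule F (X → F)) :=
    Submodule.finrank_mono (inf_le_inf_right _ (sp_mono A R hD))
  unfold rk
  omega

lemma rk_mono_col (A : X → Y → F) (R : Set X) {D' D : Set Y} (h : D' ⊆ D) :
    rk A R D' ≤ rk A R D := Submodule.finrank_mono (sp_mono A R h)

lemma rk_mono_row (A : X → Y → F) {R' R : Set X} (D : Set Y) (h : R' ⊆ R) :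
    rk A R' D ≤ rk A R D := by
  have h1 := finrank_map_add (sp A R D) (proj F R')
  rw [map_sp A h] at h1
  unfold rk
  omega

lemma rk_empty_col (A : X → Y → F) (R : Set X) : rk A R ∅ = 0 := by
  unfold rk sp
  rw [Set.image_empty, Submodule.span_empty, finrank_bot]

/-- Submodularity in the columns. -/
lemma rk_submod_col (A : X → Y → F) (R : Set X) (D₁ D₂ : Set Y) :
    rk A R (D₁ ∪ D₂) + rk A R (D₁ ∩ D₂) ≤ rk A R D₁ + rk A R D₂ := by
  have h := Submodule.finrank_sup_add_finrank_inf_eq (sp A R D₁) (sp A R D₂)
  have h1 : sp A R (D₁ ∪ D₂) = sp A R D₁ ⊔ sp A R D₂ := by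
    unfold sp
    rw [Set.image_union, Submodule.span_union]
  have h2 : finrank F (sp A R (D₁ ∩ D₂)) ≤ finrank F (sp A R D₁ ⊓ sp A R D₂ : Submodule F _) :=
    Submodule.finrank_mono (le_inf (sp_mono A R Set.inter_subset_left)
      (sp_mono A R Set.inter_subset_right))
  unfold rk
  rw [h1]
  omega

lemma rk_congr {A B : X → Y → F} {R : Set X} {D : Set Y}
    (h : ∀ i ∈ R, ∀ d ∈ D, A i d = B i d) : rk A R D = rk B R D := by
  unfold rk sp
  have : cv A R '' D = cv B R '' D := by
    apply Set.image_congr
    intro d hd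
    unfold cv
    ext i
    simp only [proj_apply]
    by_cases hi : i ∈ R
    · simp [hi, h i hi d hd]
    · simp [hi]
  rw [this]

/-- The masked matrix. -/
noncomputable def mask (A : X → Y → F) (R : Set X) (D : Set Y) : Matrix X Y F := by
  classical
  exact Matrix.of fun i d => if i ∈ R ∧ d ∈ D then A i d else 0

lemma rk_eq_rank [Fintype Y] (A : X → Y → F) (R : Set X) (D : Set Y) :
    rk A R D = (mask A R D).rank := by
  rw [Matrix.rank_eq_finrank_span_cols]
  unfold rk sp
  have key : Submodule.span F (cv A R '' D) =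
      Submodule.span F (Set.range (mask A R D).col) := by
   apply le_antisymm
   · rw [Submodule.span_le]
     rintro _ ⟨d, hd, rfl⟩
     apply Submodule.subset_span
     refine ⟨d, ?_⟩
     ext i
     simp only [Matrix.col, mask, cv, proj_apply]
     by_cases hi : i ∈ R
     · simp [hi, hd]
     · simp [hi]
   · rw [Submodule.span_le]
     rintro _ ⟨d, rfl⟩
     by_cases hd : d ∈ D
     · apply Submodule.subset_span
       refine ⟨d, hd, ?_⟩
       ext i
       simp only [Matrix.col, mask, cv, proj_apply]
       by_cases hi : i ∈ R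
       · simp [hi, hd]
       · simp [hi]
     · have : (mask A R D).col d = 0 := by
         ext i
         simp [Matrix.col, mask, hd]
       rw [this]
       exact Submodule.zero_mem _
  rw [key]

/-- Transposition. -/
lemma rk_transpose [Fintype Y] (A : X → Y → F) (R : Set X) (D : Set Y) :
    rk A R D = rk (fun d i => A i d) D R := by
  rw [rk_eq_rank, rk_eq_rank, ← Matrix.rank_transpose]
  congr 1
  ext d i
  simp only [mask, Matrix.transpose_apply, Matrix.of_apply]
  by_cases h1 : i ∈ R <;> by_cases h2 : d ∈ D <;> simp [h1, h2]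

/-- Submodularity in the rows. -/
lemma rk_submod_row [Fintype Y] (A : X → Y → F) (R₁ R₂ : Set X) (D : Set Y) :
    rk A (R₁ ∪ R₂) D + rk A (R₁ ∩ R₂) D ≤ rk A R₁ D + rk A R₂ D := by
  rw [rk_transpose A, rk_transpose A, rk_transpose A, rk_transpose A]
  exact rk_submod_col _ _ _ _

/-- The rank on everything is the rank of the matrix. -/
lemma rk_univ [Fintype Y] (A : X → Y → F) :
    rk A Set.univ Set.univ = (Matrix.of A).rank := by
  rw [rk_eq_rank]
  congr 1
  ext i d
  simp [mask]

lemma rk_le_insert_col (A : X → Y → F) (R : Set X) (D : Set Y) (c : Y) :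
    rk A R D ≤ rk A R (D \ {c}) + 1 := by
  have h := rk_submod_col A R (D \ {c}) {c}
  have h1 : rk A R D ≤ rk A R (D \ {c} ∪ {c}) := rk_mono_col A R (by
    intro d hd
    by_cases hdc : d = c
    · right; exact hdc
    · left; exact ⟨hd, hdc⟩)
  have h2 : rk A R {c} ≤ 1 := by
    unfold rk sp
    rw [Set.image_singleton]
    exact finrank_span_le_card ({cv A R c} : Set (X → F)) |>.trans (by simp)
  omega

lemma rk_le_insert_row [Fintype Y] (A : X → Y → F) (R : Set X) (D : Set Y) (r : X) :
    rk A R D ≤ rk A (R \ {r}) D + 1 := by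
  rw [rk_transpose A, rk_transpose A]
  exact rk_le_insert_col _ _ _ _

/-- Change the entry at `(r, c)`. -/
noncomputable def upd (A : X → Y → F) (r : X) (c : Y) (x : F) : X → Y → F := by
  classical
  exact fun i d => if i = r ∧ d = c then x else A i d

omit [Fintype X] in
lemma upd_same (A : X → Y → F) (r : X) (c : Y) (x : F) : upd A r c x r c = x := by
  simp [upd]

omit [Fintype X] in
lemma upd_of_ne (A : X → Y → F) {r : X} {c : Y} (x : F) {i : X} {d : Y} (h : ¬ (i = r ∧ d = c)) :
    upd A r c x i d = A i d := by
  simp [upd, h]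

/-- If the marginal rank of the column `c` on `R \ {r}` is zero, then for some value `x` of the
entry `(r, c)` its marginal rank on `R` is zero. -/
lemma exists_value (A : X → Y → F) {R : Set X} {D : Set Y} {r : X} {c : Y}
    (hb : rk A (R \ {r}) D = rk A (R \ {r}) (D \ {c})) (hc : c ∈ D) (hr : r ∈ R) :
    ∃ x : F, rk (upd A r c x) R D = rk A R (D \ {c}) := by
  have hle : sp A (R \ {r}) (D \ {c}) ≤ sp A (R \ {r}) D := sp_mono A _ Set.sdiff_subset
  have heq : sp A (R \ {r}) (D \ {c}) = sp A (R \ {r}) D :=
    Submodule.eq_of_le_of_finrank_eq hle hb.symm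
  have hmem : cv A (R \ {r}) c ∈ sp A (R \ {r}) (D \ {c}) := by
    rw [heq]
    exact Submodule.subset_span ⟨c, hc, rfl⟩
  rw [← map_sp A (Set.sdiff_subset : R \ {r} ⊆ R)] at hmem
  obtain ⟨v, hv, hv2⟩ := hmem
  have hvR : proj F R v = v := sp_supported A R _ hv
  refine ⟨v r, ?_⟩
  have hcol : cv (upd A r c (v r)) R c = v := by
    ext i
    unfold cv
    rw [proj_apply]
    by_cases hi : i ∈ R
    · rw [Set.indicator_of_mem hi]
      by_cases hir : i = r
      · subst hir
        exact upd_same _ _ _ _
      · rw [upd_of_ne _ _ (fun h => hir h.1)]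
        have h1 := congrFun hv2 i
        simp only [proj_apply, cv] at h1
        have hi' : i ∈ R \ {r} := ⟨hi, hir⟩
        rw [Set.indicator_of_mem hi', Set.indicator_of_mem hi'] at h1
        exact h1.symm
    · rw [Set.indicator_of_notMem hi, ← hvR, proj_apply, Set.indicator_of_notMem hi]
  have hcol2 : ∀ d ∈ D \ {c}, cv (upd A r c (v r)) R d = cv A R d := by
    intro d hd
    unfold cv
    congr 1
    ext i
    exact upd_of_ne _ _ (fun h => hd.2 h.2)
  unfold rk
  have hsub : sp (upd A r c (v r)) R (D \ {c}) = sp A R (D \ {c}) := by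
    unfold sp
    rw [Set.image_congr hcol2]
  have hD : D = insert c (D \ {c}) := by
    rw [Set.insert_sdiff_singleton, Set.insert_eq_of_mem hc]
  have hsp : sp (upd A r c (v r)) R D = sp A R (D \ {c}) := by
    conv_lhs => rw [hD]
    have h1 : sp (upd A r c (v r)) R (insert c (D \ {c})) =
        Submodule.span F {cv (upd A r c (v r)) R c} ⊔ sp (upd A r c (v r)) R (D \ {c}) := by
      unfold sp
      rw [Set.image_insert_eq, Submodule.span_insert]
    rw [h1, hsub, hcol, sup_eq_right, Submodule.span_singleton_le_iff_mem]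
    exact hv
  rw [hsp]

/-- For some value of the entry, the marginal rank of the column `c` or of the row `r` is
positive. -/
lemma exists_bad_value (A : X → Y → F) {R : Set X} {D : Set Y} {r : X} {c : Y}
    (hc : c ∈ D) (hr : r ∈ R) :
    ∃ x : F, ¬ (rk (upd A r c x) R D = rk A R (D \ {c}) ∧
      rk (upd A r c x) R D = rk A (R \ {r}) D) := by
  classical
  by_contra hcon
  push Not at hcon
  have key : ∀ x : F, rk (upd A r c x) R D = rk A R (D \ {c}) →
      cv (upd A r c x) R c ∈ sp A R (D \ {c}) := by
    intro x hx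
    have hcol2 : ∀ d ∈ D \ {c}, cv (upd A r c x) R d = cv A R d := by
      intro d hd
      unfold cv
      congr 1
      ext i
      exact upd_of_ne _ _ (fun h => hd.2 h.2)
    have hsub : sp (upd A r c x) R (D \ {c}) = sp A R (D \ {c}) := by
      unfold sp
      rw [Set.image_congr hcol2]
    have hle : sp (upd A r c x) R (D \ {c}) ≤ sp (upd A r c x) R D := sp_mono _ _ Set.sdiff_subset
    have heq : sp (upd A r c x) R (D \ {c}) = sp (upd A r c x) R D := by
      apply Submodule.eq_of_le_of_finrank_eq hle
      rw [hsub]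
      exact hx.symm
    rw [← hsub, heq]
    exact Submodule.subset_span ⟨c, hc, rfl⟩
  have h0 := key 0 (hcon 0).1
  have h1 := key 1 (hcon 1).1
  have hdiff : cv (upd A r c 1) R c - cv (upd A r c 0) R c ∈ sp A R (D \ {c}) :=
    Submodule.sub_mem _ h1 h0
  have hval : cv (upd A r c 1) R c - cv (upd A r c 0) R c = Pi.single r (1 : F) := by
    ext i
    simp only [Pi.sub_apply, cv, proj_apply]
    by_cases hi : i ∈ R
    · rw [Set.indicator_of_mem hi, Set.indicator_of_mem hi]
      by_cases hir : i = r
      · subst hir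
        rw [upd_same, upd_same]
        simp
      · rw [upd_of_ne _ _ (fun h => hir h.1), upd_of_ne _ _ (fun h => hir h.1)]
        simp [hir]
    · rw [Set.indicator_of_notMem hi, Set.indicator_of_notMem hi]
      have : i ≠ r := fun h => hi (h ▸ hr)
      simp [this]
  rw [hval] at hdiff
  -- now the row `r` has positive marginal rank on `D`
  have hmemD : Pi.single r (1 : F) ∈ sp (upd A r c 0) R D := by
    have hcol2 : ∀ d ∈ D \ {c}, cv (upd A r c 0) R d = cv A R d := by
      intro d hd
      unfold cv
      congr 1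
      ext i
      exact upd_of_ne _ _ (fun h => hd.2 h.2)
    have hsub : sp (upd A r c 0) R (D \ {c}) = sp A R (D \ {c}) := by
      unfold sp
      rw [Set.image_congr hcol2]
    exact sp_mono _ _ (Set.sdiff_subset : D \ {c} ⊆ D) (hsub ▸ hdiff)
  have hker : Pi.single r (1 : F) ∈ LinearMap.ker (proj F (R \ {r}) : (X → F) →ₗ[F] (X → F)) := by
    rw [LinearMap.mem_ker]
    ext i
    rw [proj_apply]
    by_cases hi : i ∈ R \ {r}
    · rw [Set.indicator_of_mem hi]
      have : i ≠ r := hi.2
      simp [this]
    · rw [Set.indicator_of_notMem hi]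
      rfl
  have hfin := finrank_map_add (sp (upd A r c 0) R D) (proj F (R \ {r}))
  rw [map_sp _ Set.sdiff_subset] at hfin
  have hpos : 0 < finrank F (sp (upd A r c 0) R D ⊓ LinearMap.ker (proj F (R \ {r})) :
      Submodule F (X → F)) := by
    apply Module.finrank_pos_iff_exists_ne_zero.2
    refine ⟨⟨Pi.single r (1 : F), hmemD, hker⟩, ?_⟩
    intro h
    have h2 := congrArg Subtype.val h
    have h3 := congrFun h2 r
    simp at h3
  have h2 := (hcon 0).2
  have h3 : rk (upd A r c 0) (R \ {r}) D = rk A (R \ {r}) D := by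
    apply rk_congr
    intro i hi d _
    exact upd_of_ne _ _ (fun h => hi.2 h.1)
  unfold rk at h2 h3
  omega

end Pool.Agent.Lib.Helper6.MinRank
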