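import Pool.Agent.Lib.Helper6.MinRank.Rank

/-!
# Potentials on column sets and the one-entry step

Let `J` be a set of known positions of an incomplete matrix `A`.  A *potential* is an integer-valued
function `φ` on sets of columns such that `φ D - φ D'` is at least the rank gained in passing from
`D' ⊆ D` to `D` on the rows that are completely known on `D`.  We show that if the position
`(r, c)` is unknown and lies on no chordless 6-cycle through its two ends, then for a suitable
value of the entry a potential with the same bounds exists for the enlarged pattern.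
-/

set_option autoImplicit false
set_option linter.unusedSectionVars false

namespace Pool.Agent.Lib.Helper6.MinRank

variable {F : Type*} [Field F] {X Y : Type*} [Fintype X] [Fintype Y]

/-- The rows that are completely known on `D`. -/
def RJ (J : Set (X × Y)) (D : Set Y) : Set X := {i | ∀ d ∈ D, (i, d) ∈ J}

/-- The columns known on all the rows of `RJ J D`. -/
def cl (J : Set (X × Y)) (D : Set Y) : Set Y := {d | ∀ i ∈ RJ J D, (i, d) ∈ J}

lemma subset_cl (J : Set (X × Y)) (D : Set Y) : D ⊆ cl J D := fun d hd _ hi => hi d hd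

lemma RJ_anti (J : Set (X × Y)) {D' D : Set Y} (h : D' ⊆ D) : RJ J D ⊆ RJ J D' :=
  fun _ hi d hd => hi d (h hd)

lemma RJ_cl (J : Set (X × Y)) (D : Set Y) : RJ J (cl J D) = RJ J D := by
  apply Set.Subset.antisymm
  · exact RJ_anti J (subset_cl J D)
  · intro i hi d hd
    exact hd i hi

lemma cl_cl (J : Set (X × Y)) (D : Set Y) : cl J (cl J D) = cl J D := by
  ext d
  simp only [cl, Set.mem_ofPred_eq]
  have := RJ_cl J D
  unfold cl at this
  rw [this]

lemma cl_mono (J : Set (X × Y)) {D' D : Set Y} (h : D' ⊆ D) : cl J D' ⊆ cl J D :=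
  fun _ hd i hi => hd i (RJ_anti J h hi)

/-- Potentials. -/
def Pot (J : Set (X × Y)) (A : X → Y → F) (φ : Set Y → ℤ) : Prop :=
  ∀ D' D : Set Y, D' ⊆ D → (rk A (RJ J D) D : ℤ) - rk A (RJ J D) D' ≤ φ D - φ D'

lemma Pot.rect {J : Set (X × Y)} {A : X → Y → F} {φ : Set Y → ℤ} (h : Pot J A φ)
    {D' D : Set Y} (hD : D' ⊆ D) {R : Set X} (hR : R ⊆ RJ J D) :
    (rk A R D : ℤ) - rk A R D' ≤ φ D - φ D' := by
  have h1 := h D' D hD
  have h2 := rk_super A hR hD
  omega

/-- A potential on closed sets extends to a potential. -/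
lemma extend {J : Set (X × Y)} {A : X → Y → F} (φ : Set Y → ℤ)
    (h : ∀ D' D : Set Y, D' ⊆ D → cl J D = D → (cl J D' = D' ∨ D' = ∅) →
      (rk A (RJ J D) D : ℤ) - rk A (RJ J D) D' ≤ φ D - φ D') :
    ∃ φ' : Set Y → ℤ, Pot J A φ' ∧ φ ∅ ≤ φ' ∅ ∧ φ' Set.univ = φ Set.univ := by
  refine ⟨fun D => φ (cl J D) - ((rk A (RJ J D) (cl J D) : ℤ) - rk A (RJ J D) D), ?_, ?_, ?_⟩
  · intro D' D hD
    have h1 := h (cl J D') (cl J D) (cl_mono J hD) (cl_cl J D) (Or.inl (cl_cl J D'))
    rw [RJ_cl] at h1
    have h2 := rk_super A (RJ_anti J hD) (subset_cl J D')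
    simp only
    omega
  · have h1 := h ∅ (cl J ∅) (Set.empty_subset _) (cl_cl J ∅) (Or.inr rfl)
    rw [RJ_cl] at h1
    simp only
    omega
  · have h1 : cl J Set.univ = Set.univ := Set.eq_univ_of_univ_subset (subset_cl J _)
    simp only [h1]
    omega

section Step

variable {J : Set (X × Y)} {A : X → Y → F} {φ : Set Y → ℤ} {r : X} {c : Y}

/-- `D` contains `c` and the row `r` is known on `D` in the enlarged pattern. -/
def ES (J : Set (X × Y)) (r : X) (c : Y) (D : Set Y) : Prop :=
  c ∈ D ∧ r ∈ RJ (insert (r, c) J) D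

/-- Closed sets `D` with `ES`. -/
def CE (J : Set (X × Y)) (r : X) (c : Y) (D : Set Y) : Prop :=
  cl (insert (r, c) J) D = D ∧ ES J r c D

lemma mem_of_insert {i : X} {d : Y} (h : (i, d) ∈ insert (r, c) J) (hne : i ≠ r ∨ d ≠ c) :
    (i, d) ∈ J := by
  rcases h with h | h
  · rw [Prod.mk.injEq] at h
    rcases hne with h1 | h1
    · exact absurd h.1 h1
    · exact absurd h.2 h1
  · exact h

lemma RJ_of_ES (hrc : (r, c) ∉ J) {D : Set Y} (h : ES J r c D) :
    RJ J D = RJ (insert (r, c) J) D \ {r} := by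
  ext i
  constructor
  · intro hi
    refine ⟨fun d hd => Set.mem_insert_of_mem _ (hi d hd), ?_⟩
    rintro rfl
    exact hrc (hi c h.1)
  · rintro ⟨hi, hir⟩ d hd
    exact mem_of_insert (hi d hd) (Or.inl hir)

lemma RJ_sub_of_ES {D : Set Y} : RJ (insert (r, c) J) D ⊆ RJ J (D \ {c}) := by
  intro i hi d hd
  exact mem_of_insert (hi d hd.1) (Or.inr hd.2)

lemma RJ_of_not_ES {D : Set Y} (h : ¬ ES J r c D) : RJ (insert (r, c) J) D = RJ J D := by
  ext i
  constructor
  · intro hi d hd
    by_cases hir : i = r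
    · subst hir
      have hc : c ∉ D := fun hc => h ⟨hc, hi⟩
      exact mem_of_insert (hi d hd) (Or.inr (fun hdc => hc (hdc ▸ hd)))
    · exact mem_of_insert (hi d hd) (Or.inl hir)
  · intro hi d hd
    exact Set.mem_insert_of_mem _ (hi d hd)

/-- The closed sets with `ES` form a chain. -/
lemma CE_chain (hC6 : ∀ r₁ r₂ d₁ d₂, (r, d₁) ∈ J → (r, d₂) ∈ J → (r₁, d₁) ∈ J → (r₁, c) ∈ J →
      (r₂, c) ∈ J → (r₂, d₂) ∈ J → (r₁, d₂) ∈ J ∨ (r₂, d₁) ∈ J)
    {D₁ D₂ : Set Y} (h₁ : CE J r c D₁) (h₂ : CE J r c D₂) : D₁ ⊆ D₂ ∨ D₂ ⊆ D₁ := by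
  by_contra hcon
  push Not at hcon
  obtain ⟨hn1, hn2⟩ := hcon
  obtain ⟨d₁, hd₁, hd₁'⟩ := Set.not_subset.1 hn1
  obtain ⟨d₂, hd₂, hd₂'⟩ := Set.not_subset.1 hn2
  obtain ⟨hcl1, hc1, hr1⟩ := h₁
  obtain ⟨hcl2, hc2, hr2⟩ := h₂
  rw [← hcl2] at hd₁'
  rw [← hcl1] at hd₂'
  simp only [cl, Set.mem_ofPred_eq, not_forall] at hd₁' hd₂'
  obtain ⟨r₂, hr₂, hr₂'⟩ := hd₁'
  obtain ⟨r₁, hr₁, hr₁'⟩ := hd₂'
  have hd1c : d₁ ≠ c := by
    rintro rfl
    exact hr₂' (hr₂ _ hc2)
  have hd2c : d₂ ≠ c := by
    rintro rfl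
    exact hr₁' (hr₁ _ hc1)
  have hr1r : r₁ ≠ r := by
    rintro rfl
    exact hr₁' (hr2 _ hd₂)
  have hr2r : r₂ ≠ r := by
    rintro rfl
    exact hr₂' (hr1 _ hd₁)
  rcases hC6 r₁ r₂ d₁ d₂ (mem_of_insert (hr1 _ hd₁) (Or.inr hd1c))
    (mem_of_insert (hr2 _ hd₂) (Or.inr hd2c)) (mem_of_insert (hr₁ _ hd₁) (Or.inr hd1c))
    (mem_of_insert (hr₁ _ hc1) (Or.inl hr1r)) (mem_of_insert (hr₂ _ hc2) (Or.inl hr2r))
    (mem_of_insert (hr₂ _ hd₂) (Or.inr hd2c)) with h | h
  · exact hr₁' (Set.mem_insert_of_mem _ h)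
  · exact hr₂' (Set.mem_insert_of_mem _ h)

lemma rk_upd_col (x : F) (R : Set X) (D : Set Y) (hc : c ∉ D) :
    rk (upd A r c x) R D = rk A R D := by
  apply rk_congr
  intro i _ d hd
  exact upd_of_ne _ _ (fun h => hc (h.2 ▸ hd))

lemma rk_upd_row (x : F) (R : Set X) (D : Set Y) (hr : r ∉ R) :
    rk (upd A r c x) R D = rk A R D := by
  apply rk_congr
  intro i hi d _
  exact upd_of_ne _ _ (fun h => hr (h.1 ▸ hi))

/-- From suitable values on the closed sets with `ES` we obtain a potential on the enlarged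
pattern. -/
lemma assemble (hφ : Pot J A φ) (x : F) (ψ : Set Y → ℤ)
    (ha : ∀ D, CE J r c D → φ (D \ {c}) + ((rk (upd A r c x) (RJ (insert (r, c) J) D) D : ℤ) -
      rk A (RJ (insert (r, c) J) D) (D \ {c})) ≤ ψ D)
    (hb : ∀ D, CE J r c D → ψ D ≤ φ D)
    (hc : ∀ D' D, CE J r c D' → CE J r c D → D' ⊆ D →
      (rk (upd A r c x) (RJ (insert (r, c) J) D) D : ℤ) -
        rk (upd A r c x) (RJ (insert (r, c) J) D) D' ≤ ψ D - ψ D') :
    ∃ φ' : Set Y → ℤ, Pot (insert (r, c) J) (upd A r c x) φ' ∧ φ ∅ ≤ φ' ∅ ∧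
      φ' Set.univ ≤ φ Set.univ := by
  classical
  set χ : Set Y → ℤ := fun D => if CE J r c D then ψ D else φ D with hχ
  have hnotES : ∀ D, cl (insert (r, c) J) D = D → ¬ CE J r c D → ¬ ES J r c D :=
    fun D h1 h2 h3 => h2 ⟨h1, h3⟩
  obtain ⟨φ', h1, h2, h3⟩ := extend (J := insert (r, c) J) (A := upd A r c x) χ (by
    intro D' D hD hclD hD'
    by_cases hCE : CE J r c D
    · have hχD : χ D = ψ D := by simp [hχ, hCE]
      by_cases hCE' : CE J r c D'
      · have hχD' : χ D' = ψ D' := by simp [hχ, hCE']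
        rw [hχD, hχD']
        exact hc D' D hCE' hCE hD
      · have hχD' : χ D' = φ D' := by simp [hχ, hCE']
        rw [hχD, hχD']
        have hcD' : c ∉ D' := by
          rcases hD' with hD' | hD'
          · intro hcD'
            exact hnotES D' hD' hCE' ⟨hcD', RJ_anti _ hD hCE.2.2⟩
          · rw [hD']
            exact Set.notMem_empty _
        have e1 := hφ.rect (D' := D') (D := D \ {c})
          (fun d hd => ⟨hD hd, fun hdc => hcD' (by rw [← Set.mem_singleton_iff.1 hdc]; exact hd)⟩)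
          (R := RJ (insert (r, c) J) D) RJ_sub_of_ES
        have e2 := ha D hCE
        have e3 := rk_upd_col (A := A) (r := r) x (RJ (insert (r, c) J) D) D' hcD'
        rw [e3]
        omega
    · have hχD : χ D = φ D := by simp [hχ, hCE]
      have hES := hnotES D hclD hCE
      have hR := RJ_of_not_ES hES
      have hcongr : ∀ D'' : Set Y, D'' ⊆ D → rk (upd A r c x) (RJ J D) D'' = rk A (RJ J D) D'' := by
        intro D'' hD''
        apply rk_congr
        intro i hi d hd
        apply upd_of_ne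
        rintro ⟨rfl, rfl⟩
        exact hES ⟨hD'' hd, hR ▸ hi⟩
      rw [hR, hcongr D subset_rfl, hcongr D' hD, hχD]
      have e1 := hφ D' D hD
      have e2 : χ D' ≤ φ D' := by
        by_cases hCE' : CE J r c D'
        · simp only [hχ, hCE', if_true]
          exact hb D' hCE'
        · simp [hχ, hCE']
      omega)
  refine ⟨φ', h1, ?_, ?_⟩
  · have : χ ∅ = φ ∅ := by
      have : ¬ CE J r c ∅ := fun h => h.2.1
      simp [hχ, this]
    rw [← this]
    exact h2
  · rw [h3]
    by_cases hCE : CE J r c Set.univ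
    · simp only [hχ, hCE, if_true]
      exact hb _ hCE
    · simp [hχ, hCE]

/-- **The one-entry step.** -/
theorem step (hφ : Pot J A φ) (hrc : (r, c) ∉ J)
    (hC6 : ∀ r₁ r₂ d₁ d₂, (r, d₁) ∈ J → (r, d₂) ∈ J → (r₁, d₁) ∈ J → (r₁, c) ∈ J →
      (r₂, c) ∈ J → (r₂, d₂) ∈ J → (r₁, d₂) ∈ J ∨ (r₂, d₁) ∈ J) :
    ∃ (x : F) (φ' : Set Y → ℤ), Pot (insert (r, c) J) (upd A r c x) φ' ∧ φ ∅ ≤ φ' ∅ ∧
      φ' Set.univ ≤ φ Set.univ := by
  classical
  -- abbreviations
  let S : Set Y → Set X := fun D => RJ (insert (r, c) J) D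
  let C : F → Set Y → ℤ := fun x D => (rk (upd A r c x) (S D) D : ℤ) - rk A (S D) (D \ {c})
  let P : F → Set Y → ℤ := fun x D => (rk (upd A r c x) (S D) D : ℤ) - rk A (S D \ {r}) D
  let C' : F → Set Y → Set Y → ℤ := fun x D' D =>
    (rk (upd A r c x) (S D) D' : ℤ) - rk A (S D) (D' \ {c})
  let P' : F → Set Y → Set Y → ℤ := fun x D' D =>
    (rk (upd A r c x) (S D) D' : ℤ) - rk A (S D \ {r}) D'
  let a : Set Y → ℤ := fun D => (rk A (S D) (D \ {c}) : ℤ) - rk A (S D \ {r}) (D \ {c})
  let b : Set Y → ℤ := fun D => (rk A (S D \ {r}) D : ℤ) - rk A (S D \ {r}) (D \ {c})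
  let w : F → Set Y → Set Y → ℤ := fun x D' D =>
    (rk (upd A r c x) (S D) D : ℤ) - rk (upd A r c x) (S D) D'
  -- basic facts on the update
  have ucol : ∀ x R (D : Set Y), rk (upd A r c x) R (D \ {c}) = rk A R (D \ {c}) :=
    fun x R D => rk_upd_col x R _ (fun h => h.2 rfl)
  have urow : ∀ x (R : Set X) (D : Set Y), rk (upd A r c x) (R \ {r}) D = rk A (R \ {r}) D :=
    fun x R D => rk_upd_row x _ D (fun h => h.2 rfl)
  have hchain : ∀ D₁ D₂, CE J r c D₁ → CE J r c D₂ → D₁ ⊆ D₂ ∨ D₂ ⊆ D₁ :=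
    fun D₁ D₂ h₁ h₂ => CE_chain hC6 h₁ h₂
  -- identities and bounds at a single set
  have hid : ∀ x D, C x D + a D = P x D + b D := by
    intro x D
    simp only [C, a, P, b]
    ring
  have hC01 : ∀ x D, CE J r c D → b D ≤ C x D ∧ C x D ≤ 1 := by
    intro x D hD
    have h1 := rk_le_insert_col (upd A r c x) (S D) D c
    rw [ucol] at h1
    have h2 := rk_super (upd A r c x) (Set.sdiff_subset : S D \ {r} ⊆ S D)
      (Set.sdiff_subset : D \ {c} ⊆ D)
    rw [ucol, ucol, urow] at h2
    simp only [C, b]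
    constructor <;> omega
  have hP01 : ∀ x D, CE J r c D → a D ≤ P x D ∧ P x D ≤ 1 := by
    intro x D hD
    have h1 := rk_le_insert_row (upd A r c x) (S D) D r
    rw [urow] at h1
    have h2 := rk_super (upd A r c x) (Set.sdiff_subset : S D \ {r} ⊆ S D)
      (Set.sdiff_subset : D \ {c} ⊆ D)
    rw [ucol, ucol, urow] at h2
    simp only [P, a]
    constructor <;> omega
  have ha0 : ∀ D, 0 ≤ a D := by
    intro D
    have := rk_mono_row A (D \ {c}) (Set.sdiff_subset : S D \ {r} ⊆ S D)
    simp only [a]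
    omega
  have hb0 : ∀ D, 0 ≤ b D := by
    intro D
    have := rk_mono_col A (S D \ {r}) (Set.sdiff_subset : D \ {c} ⊆ D)
    simp only [b]
    omega
  -- the slack
  have hσ : ∀ D, CE J r c D → b D ≤ φ D - φ (D \ {c}) := by
    intro D hD
    have h1 := hφ (D \ {c}) D Set.sdiff_subset
    rw [RJ_of_ES hrc hD.2] at h1
    exact h1
  -- two nested sets
  have hLineq : ∀ x D' D, CE J r c D' → CE J r c D → D' ⊆ D →
      w x D' D - C x D + C' x D' D ≤ φ (D \ {c}) - φ (D' \ {c}) := by
    intro x D' D _ _ hsub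
    have h1 := hφ.rect (D' := D' \ {c}) (D := D \ {c}) (Set.sdiff_subset_sdiff_left hsub)
      (R := S D) RJ_sub_of_ES
    simp only [w, C, C']
    linarith
  have hRineq : ∀ x D' D, CE J r c D' → CE J r c D → D' ⊆ D →
      w x D' D - P x D + P' x D' D ≤ φ D - φ D' := by
    intro x D' D _ hD hsub
    have h1 := hφ D' D hsub
    rw [RJ_of_ES hrc hD.2] at h1
    simp only [w, P, P', S]
    linarith
  have hCmono1 : ∀ x D' D, CE J r c D' → CE J r c D → D' ⊆ D → C x D ≤ C' x D' D := by
    intro x D' D hD' hD hsub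
    have h1 := rk_submod_col (upd A r c x) (S D) D' (D \ {c})
    have e1 : D' ∪ D \ {c} = D := by
      ext d
      constructor
      · rintro (h | h)
        · exact hsub h
        · exact h.1
      · intro h
        by_cases hdc : d = c
        · left; rw [hdc]; exact hD'.2.1
        · right; exact ⟨h, hdc⟩
    have e2 : D' ∩ (D \ {c}) = D' \ {c} := by
      ext d
      constructor
      · rintro ⟨h, h'⟩
        exact ⟨h, h'.2⟩
      · rintro ⟨h, h'⟩
        exact ⟨h, hsub h, h'⟩
    rw [e1, e2, ucol, ucol] at h1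
    simp only [C, C']
    omega
  have hCmono2 : ∀ x D' D, CE J r c D' → CE J r c D → D' ⊆ D → C' x D' D ≤ C x D' := by
    intro x D' D _ _ hsub
    have h1 := rk_super (upd A r c x) (R' := S D) (R := S D') (RJ_anti _ hsub)
      (Set.sdiff_subset : D' \ {c} ⊆ D')
    rw [ucol, ucol] at h1
    simp only [C, C']
    omega
  have hPmono1 : ∀ x D' D, CE J r c D' → CE J r c D → D' ⊆ D → P x D' ≤ P' x D' D := by
    intro x D' D _ hD hsub
    have hsub' : S D ⊆ S D' := RJ_anti _ hsub
    have h1 := rk_submod_row (upd A r c x) (S D) (S D' \ {r}) D'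
    have e1 : S D ∪ S D' \ {r} = S D' := by
      ext i
      constructor
      · rintro (h | h)
        · exact hsub' h
        · exact h.1
      · intro h
        by_cases hir : i = r
        · left; rw [hir]; exact hD.2.2
        · right; exact ⟨h, hir⟩
    have e2 : S D ∩ (S D' \ {r}) = S D \ {r} := by
      ext i
      constructor
      · rintro ⟨h, h'⟩
        exact ⟨h, h'.2⟩
      · rintro ⟨h, h'⟩
        exact ⟨h, hsub' h, h'⟩
    rw [e1, e2, urow, urow] at h1
    simp only [P, P']
    omega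
  have hPmono2 : ∀ x D' D, CE J r c D' → CE J r c D → D' ⊆ D → P' x D' D ≤ P x D := by
    intro x D' D _ _ hsub
    have h1 := rk_super (upd A r c x) (Set.sdiff_subset : S D \ {r} ⊆ S D) hsub
    rw [urow, urow] at h1
    simp only [P, P']
    omega
  have hbmono : ∀ D' D, CE J r c D' → CE J r c D → D' ⊆ D → b D ≤ b D' := by
    intro D' D hD' hD hsub
    have h1 := rk_submod_col A (S D \ {r}) D' (D \ {c})
    have e1 : D' ∪ D \ {c} = D := by
      ext d
      constructor
      · rintro (h | h)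
        · exact hsub h
        · exact h.1
      · intro h
        by_cases hdc : d = c
        · left; rw [hdc]; exact hD'.2.1
        · right; exact ⟨h, hdc⟩
    have e2 : D' ∩ (D \ {c}) = D' \ {c} := by
      ext d
      constructor
      · rintro ⟨h, h'⟩
        exact ⟨h, h'.2⟩
      · rintro ⟨h, h'⟩
        exact ⟨h, hsub h, h'⟩
    rw [e1, e2] at h1
    have h2 := rk_super A (Set.sdiff_subset_sdiff_left (RJ_anti _ hsub) : S D \ {r} ⊆ S D' \ {r})
      (Set.sdiff_subset : D' \ {c} ⊆ D')
    simp only [b]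
    omega
  have hwadd : ∀ x D₁ D₂ D₃, D₁ ⊆ D₂ → D₂ ⊆ D₃ → w x D₁ D₃ ≤ w x D₁ D₂ + w x D₂ D₃ := by
    intro x D₁ D₂ D₃ h12 h23
    have h1 := rk_super (upd A r c x) (R' := S D₃) (R := S D₂) (RJ_anti _ h23) h12
    simp only [w]
    omega
  by_cases hA : ∃ D₀, CE J r c D₀ ∧ φ D₀ = φ (D₀ \ {c}) ∧ a D₀ = 0 ∧ b D₀ = 0
  · -- Case A
    obtain ⟨D₀, hD₀, hσ0, ha0', hb0'⟩ := hA
    have hbb : rk A (S D₀ \ {r}) D₀ = rk A (S D₀ \ {r}) (D₀ \ {c}) := by
      simp only [b] at hb0'
      omega
    obtain ⟨x, hx⟩ := exists_value A hbb hD₀.2.1 hD₀.2.2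
    have hC0 : C x D₀ = 0 := by
      simp only [C]
      rw [hx]
      ring
    have hP0 : P x D₀ = 0 := by
      have := hid x D₀
      omega
    refine ⟨x, assemble hφ x (fun D => if D₀ ⊆ D then φ (D \ {c}) else φ D) ?_ ?_ ?_⟩
    · intro D hD
      show φ (D \ {c}) + C x D ≤ _
      split_ifs with h
      · have h1 := hCmono1 x D₀ D hD₀ hD h
        have h2 := hCmono2 x D₀ D hD₀ hD h
        have h3 := (hC01 x D hD).1
        have h4 := hb0 D
        omega
      · have h' : D ⊆ D₀ := (hchain D₀ D hD₀ hD).resolve_left h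
        have h1 := hPmono1 x D D₀ hD hD₀ h'
        have h2 := hPmono2 x D D₀ hD hD₀ h'
        have h3 := (hP01 x D hD).1
        have h4 := ha0 D
        have h5 := hid x D
        have h6 := hσ D hD
        omega
    · intro D hD
      split_ifs with h
      · have h1 := hσ D hD
        have h2 := hb0 D
        omega
      · exact le_rfl
    · intro D' D hD' hD hsub
      show w x D' D ≤ _
      by_cases h1 : D₀ ⊆ D'
      · have h2 : D₀ ⊆ D := h1.trans hsub
        rw [if_pos h2, if_pos h1]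
        have e1 := hLineq x D' D hD' hD hsub
        have e2 := hCmono1 x D' D hD' hD hsub
        omega
      · have h1' : D' ⊆ D₀ := (hchain D₀ D' hD₀ hD').resolve_left h1
        by_cases h2 : D₀ ⊆ D
        · rw [if_pos h2, if_neg h1]
          have e1 := hLineq x D₀ D hD₀ hD h2
          have e2 := hCmono1 x D₀ D hD₀ hD h2
          have e3 := hRineq x D' D₀ hD' hD₀ h1'
          have e4 := hPmono1 x D' D₀ hD' hD₀ h1'
          have e5 := (hP01 x D' hD').1
          have e6 := ha0 D'
          have e7 := hwadd x D' D₀ D h1' h2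
          omega
        · rw [if_neg h2, if_neg h1]
          have h2' : D ⊆ D₀ := (hchain D₀ D hD₀ hD).resolve_left h2
          have e1 := hRineq x D' D hD' hD hsub
          have e2 := hPmono1 x D' D hD' hD hsub
          have e3 := (hP01 x D' hD').1
          have e4 := ha0 D'
          have e5 := hPmono1 x D D₀ hD hD₀ h2'
          have e6 := hPmono2 x D D₀ hD hD₀ h2'
          omega
  · -- Case B
    push Not at hA
    -- the choice of the value
    obtain ⟨x, hx⟩ : ∃ x : F, ∀ E E' : Set Y, CE J r c E → b E ≠ 0 →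
        (∀ D, CE J r c D → b D ≠ 0 → D ⊆ E) → CE J r c E' → b E' = 0 →
        (∀ D, CE J r c D → b D = 0 → E' ⊆ D) → ¬ (C' x E E' = 0 ∧ P' x E E' = 0) := by
      by_cases hex : ∃ E E' : Set Y, CE J r c E ∧ b E ≠ 0 ∧
        (∀ D, CE J r c D → b D ≠ 0 → D ⊆ E) ∧ CE J r c E' ∧ b E' = 0 ∧
        (∀ D, CE J r c D → b D = 0 → E' ⊆ D)
      · obtain ⟨E, E', h1, h2, h3, h4, h5, h6⟩ := hex
        obtain ⟨x, hx⟩ := exists_bad_value A (R := S E') (D := E) (r := r) (c := c) h1.2.1 h4.2.2
        refine ⟨x, ?_⟩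
        intro E₁ E₁' g1 g2 g3 g4 g5 g6
        have hE : E₁ = E := Set.Subset.antisymm (h3 _ g1 g2) (g3 _ h1 h2)
        have hE' : E₁' = E' := Set.Subset.antisymm (g6 _ h4 h5) (h6 _ g4 g5)
        subst hE hE'
        rintro ⟨k1, k2⟩
        apply hx
        simp only [C', P'] at k1 k2
        constructor <;> omega
      · refine ⟨0, ?_⟩
        intro E E' h1 h2 h3 h4 h5 h6
        exact absurd ⟨E, E', h1, h2, h3, h4, h5, h6⟩ hex
    have haCase : ∀ D, CE J r c D → b D = 0 → φ (D \ {c}) + C x D ≤ φ D - 1 + P x D := by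
      intro D hD hbD
      have h1 := hid x D
      have h2 := hσ D hD
      have h3 := hC01 x D hD
      have h4 := hP01 x D hD
      have h5 := ha0 D
      by_cases haD : a D = 0
      · have h6 : φ D ≠ φ (D \ {c}) := fun h => hA D hD h haD hbD
        omega
      · omega
    refine ⟨x, assemble hφ x (fun D => if b D = 0 then φ D - 1 + P x D else φ (D \ {c}) + 1)
      ?_ ?_ ?_⟩
    · intro D hD
      show φ (D \ {c}) + C x D ≤ _
      split_ifs with h
      · exact haCase D hD h
      · have h3 := (hC01 x D hD).2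
        omega
    · intro D hD
      split_ifs with h
      · have h4 := (hP01 x D hD).2
        omega
      · have h1 := hσ D hD
        have h2 := hb0 D
        omega
    · intro D' D hD' hD hsub
      show w x D' D ≤ _
      have hbm := hbmono D' D hD' hD hsub
      have hbD0 := hb0 D
      have hbD'0 := hb0 D'
      have hUU : ∀ D' D, CE J r c D' → CE J r c D → D' ⊆ D →
          w x D' D ≤ (φ (D \ {c}) + 1) - (φ (D' \ {c}) + 1) := by
        intro D' D hD' hD hsub
        have e1 := hLineq x D' D hD' hD hsub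
        have e2 := hCmono1 x D' D hD' hD hsub
        omega
      have hVV : ∀ D' D, CE J r c D' → CE J r c D → D' ⊆ D →
          w x D' D ≤ (φ D - 1 + P x D) - (φ D' - 1 + P x D') := by
        intro D' D hD' hD hsub
        have e1 := hRineq x D' D hD' hD hsub
        have e2 := hPmono1 x D' D hD' hD hsub
        omega
      by_cases hbD : b D = 0
      · by_cases hbD' : b D' = 0
        · rw [if_pos hbD, if_pos hbD']
          exact hVV D' D hD' hD hsub
        · rw [if_pos hbD, if_neg hbD']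
          -- the last set with `b ≠ 0`, and the first one with `b = 0`
          obtain ⟨E, hE⟩ := (Set.toFinite {D | CE J r c D ∧ b D ≠ 0}).exists_maximal
            ⟨D', hD', hbD'⟩
          obtain ⟨E', hE'⟩ := (Set.toFinite {D | CE J r c D ∧ b D = 0}).exists_minimal
            ⟨D, hD, hbD⟩
          have hEmax : ∀ D, CE J r c D → b D ≠ 0 → D ⊆ E := by
            intro D hD hbD
            rcases hchain D E hD hE.prop.1 with h | h
            · exact h
            · exact hE.2 ⟨hD, hbD⟩ h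
          have hE'min : ∀ D, CE J r c D → b D = 0 → E' ⊆ D := by
            intro D hD hbD
            rcases hchain E' D hE'.prop.1 hD with h | h
            · exact h
            · exact hE'.2 ⟨hD, hbD⟩ h
          have hECE := hE.prop.1
          have hE'CE := hE'.prop.1
          have hbE : b E ≠ 0 := hE.prop.2
          have hbE' : b E' = 0 := hE'.prop.2
          have hEE' : E ⊆ E' := by
            rcases hchain E E' hECE hE'CE with h | h
            · exact h
            · exfalso
              have := hbmono E' E hE'CE hECE h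
              have := hb0 E
              omega
          have hchoice := hx E E' hECE hbE hEmax hE'CE hbE' hE'min
          have hD'E : D' ⊆ E := hEmax D' hD' hbD'
          have hE'D : E' ⊆ D := hE'min D hD hbD
          have e1 := hUU D' E hD' hECE hD'E
          have e2 := hVV E' D hE'CE hD hE'D
          have e3 : w x E E' ≤ (φ E' - 1 + P x E') - (φ (E \ {c}) + 1) := by
            have f1 := hLineq x E E' hECE hE'CE hEE'
            have f2 := hRineq x E E' hECE hE'CE hEE'
            have f3 := haCase E' hE'CE hbE'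
            have f4 := hσ E hECE
            have f5 := hb0 E
            have f6 := hCmono1 x E E' hECE hE'CE hEE'
            have f7 := (hC01 x E' hE'CE).1
            have f8 := hPmono1 x E E' hECE hE'CE hEE'
            have f9 := (hP01 x E hECE).1
            have f10 := ha0 E
            have f11 := hb0 E'
            by_cases hP' : P' x E E' = 0
            · have hC' : C' x E E' ≠ 0 := fun h => hchoice ⟨h, hP'⟩
              omega
            · omega
          have e4 := hwadd x D' E D hD'E (hEE'.trans hE'D)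
          have e5 := hwadd x E E' D hEE' hE'D
          omega
      · have hbD' : b D' ≠ 0 := by omega
        rw [if_neg hbD, if_neg hbD']
        exact hUU D' D hD' hD hsub

end Step

end Pool.Agent.Lib.Helper6.MinRank
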